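import Mathlib

set_option autoImplicit false

namespace Pool.Agent.Helper74.BIS

open SimpleGraph

/-- Adding bridges keeps a graph 2-colourable. -/
theorem BR {V : Type*} [Finite V] (H : SimpleGraph V) (c : V → Bool)
    (hc : ∀ a b, H.Adj a b → c a ≠ c b) :
    ∀ (n : ℕ) (H' : SimpleGraph V), H ≤ H' → (H'.edgeSet \ H.edgeSet).ncard = n →
    (∀ a b, H'.Adj a b → ¬ H.Adj a b → H'.IsBridge s(a, b)) →
    ∃ c' : V → Bool, ∀ a b, H'.Adj a b → c' a ≠ c' b := by
  classical
  intro n
  induction n with
  | zero =>
    intro H' hle hn _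
    refine ⟨c, fun a b hab => hc a b ?_⟩
    by_contra hno
    have h1 : (H'.edgeSet \ H.edgeSet) = ∅ := by
      rwa [Set.ncard_eq_zero (Set.toFinite _)] at hn
    have h2 : s(a, b) ∈ H'.edgeSet \ H.edgeSet := ⟨hab, hno⟩
    rw [h1] at h2
    exact h2
  | succ n ih =>
    intro H' hle hn hbr
    have hne : (H'.edgeSet \ H.edgeSet).Nonempty := by
      rw [← Set.ncard_pos (Set.toFinite _)]
      omega
    obtain ⟨e, he, he'⟩ := hne
    induction e with
    | h a b =>
      rw [SimpleGraph.mem_edgeSet] at he he'
      let H'' := H'.deleteEdges {s(a, b)}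
      have hle' : H ≤ H'' := by
        intro x y hxy
        simp only [H'', SimpleGraph.deleteEdges_adj, Set.mem_singleton_iff]
        refine ⟨hle hxy, fun h => he' ?_⟩
        rw [← SimpleGraph.mem_edgeSet, ← h]
        exact hxy
      have hle2 : H'' ≤ H' := SimpleGraph.deleteEdges_le _
      have hes : H''.edgeSet \ H.edgeSet = (H'.edgeSet \ H.edgeSet) \ {s(a, b)} := by
        simp only [H'', SimpleGraph.edgeSet_deleteEdges]
        ext x
        simp only [Set.mem_diff, Set.mem_singleton_iff]
        tauto
      have hcard : (H''.edgeSet \ H.edgeSet).ncard = n := by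
        rw [hes]
        have := Set.ncard_diff_singleton_of_mem (s := H'.edgeSet \ H.edgeSet) (a := s(a, b))
          ⟨he, he'⟩
        omega
      obtain ⟨c'', hc''⟩ := ih H'' hle' hcard (by
        intro x y hxy hxy'
        exact (hbr x y (hle2 hxy) hxy').anti hle2)
      have hnr : ¬ H''.Reachable a b := hbr a b he he'
      by_cases hab : c'' a = c'' b
      · refine ⟨fun v => if H''.Reachable a v then !(c'' v) else c'' v, ?_⟩
        intro x y hxy
        by_cases hxy' : s(x, y) = s(a, b)
        · rw [Sym2.eq_iff] at hxy'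
          rcases hxy' with ⟨rfl, rfl⟩ | ⟨rfl, rfl⟩
          · simp [hnr, hab]
          · simp [hnr, hab]
        · have hadj : H''.Adj x y := by
            simp only [H'', SimpleGraph.deleteEdges_adj, Set.mem_singleton_iff]
            exact ⟨hxy, hxy'⟩
          have hr : H''.Reachable a x ↔ H''.Reachable a y :=
            ⟨fun h => h.trans hadj.reachable, fun h => h.trans hadj.symm.reachable⟩
          have h1 := hc'' x y hadj
          by_cases h : H''.Reachable a x
          · have h' := hr.1 h
            simp only [h, h', if_true]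
            intro h3
            exact h1 (by simpa using h3)
          · have h' : ¬ H''.Reachable a y := fun h3 => h (hr.2 h3)
            simp only [h, h', if_false]
            exact h1
      · refine ⟨c'', ?_⟩
        intro x y hxy
        by_cases hxy' : s(x, y) = s(a, b)
        · rw [Sym2.eq_iff] at hxy'
          rcases hxy' with ⟨rfl, rfl⟩ | ⟨rfl, rfl⟩
          · exact hab
          · exact fun h => hab h.symm
        · apply hc''
          simp only [H'', SimpleGraph.deleteEdges_adj, Set.mem_singleton_iff]
          exact ⟨hxy, hxy'⟩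

/-- A non-bridge edge lies on a cycle, so its ends are joined by a walk of other non-bridges. -/
theorem NB {V : Type*} (H : SimpleGraph V) (a b : V) (hab : H.Adj a b)
    (hnb : ¬ H.IsBridge s(a, b)) :
    ∃ p : H.Walk a b, ∀ e ∈ p.edges, ¬ H.IsBridge e ∧ e ≠ s(a, b) := by
  classical
  rw [SimpleGraph.isBridge_iff_forall_walk_mem_edges] at hnb
  push Not at hnb
  obtain ⟨p, hp⟩ := hnb
  refine ⟨p.toPath, ?_⟩
  have hno : s(a, b) ∉ (p.toPath : H.Walk a b).edges :=
    fun h => hp (Walk.edges_toPath_subset_edges p h)
  have hcyc : (Walk.cons hab.symm (p.toPath : H.Walk a b)).IsCycle := by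
    apply Path.cons_isCycle
    rw [Sym2.eq_swap]
    exact hno
  intro e he
  refine ⟨fun hb => ?_, fun h => hno (h ▸ he)⟩
  apply hb.notMem_edges_of_isCycle hcyc
  rw [Walk.edges_cons]
  exact List.mem_cons_of_mem _ he

end Pool.Agent.Helper74.BIS
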