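import Mathlib

set_option autoImplicit false

namespace Pool.Agent.Helper74.BIS

open SimpleGraph

theorem pathm {V : Type*} {F : SimpleGraph V} : ∀ (n : ℕ) {a b : V} (p : F.Walk a b), p.IsPath →
    p.length = 2 * n + 1 → ∃ ν : V → V, (∀ v, ν (ν v) = v) ∧ (∀ v, v ∉ p.support → ν v = v) ∧
      ∀ v ∈ p.support, F.Adj v (ν v) := by
  classical
  intro n
  induction n with
  | zero =>
    intro a b p hp hl
    cases p with
    | nil => simp at hl
    | cons h q =>
      cases q with
      | nil =>
        refine ⟨Equiv.swap a b, ?_, ?_, ?_⟩
        · intro v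
          rw [← Equiv.Perm.mul_apply, Equiv.swap_mul_self, Equiv.Perm.one_apply]
        · intro v hv
          simp only [Walk.support_cons, Walk.support_nil, List.mem_cons, List.not_mem_nil,
            or_false, not_or] at hv
          exact Equiv.swap_apply_of_ne_of_ne hv.1 hv.2
        · intro v hv
          simp only [Walk.support_cons, Walk.support_nil, List.mem_cons, List.not_mem_nil,
            or_false] at hv
          rcases hv with rfl | rfl
          · rw [Equiv.swap_apply_left]; exact h
          · rw [Equiv.swap_apply_right]; exact h.symm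
      | cons h' q' => simp at hl
  | succ n ih =>
    intro a b p hp hl
    cases p with
    | nil => simp at hl
    | cons h q =>
      cases q with
      | nil => simp at hl
      | @cons _ a1 _ h' q' =>
        rename_i a0
        rw [Walk.cons_isPath_iff, Walk.cons_isPath_iff] at hp
        obtain ⟨⟨hq, h0⟩, ha⟩ := hp
        rw [Walk.support_cons, List.mem_cons, not_or] at ha
        obtain ⟨ν, h1, h2, h3⟩ := ih q' hq (by simpa [mul_add] using hl)
        have ha0 : ν a0 = a0 := h2 a0 h0
        have haa : ν a = a := h2 a ha.2
        refine ⟨fun v => if v = a then a0 else if v = a0 then a else ν v, ?_, ?_, ?_⟩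
        · intro v
          by_cases hv : v = a
          · subst hv
            have : ¬ a0 = v := fun h4 => ha.1 h4.symm
            simp [this]
          · by_cases hv0 : v = a0
            · subst hv0
              simp [hv]
            · have h5 : ¬ ν v = a := by
                intro h6
                apply hv
                rw [← h1 v, h6, haa]
              have h7 : ¬ ν v = a0 := by
                intro h6
                apply hv0
                rw [← h1 v, h6, ha0]
              simp [hv, hv0, h5, h7, h1]
        · intro v hv
          simp only [Walk.support_cons, List.mem_cons, not_or] at hv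
          simp [hv.1, hv.2.1, h2 v hv.2.2]
        · intro v hv
          simp only [Walk.support_cons, List.mem_cons] at hv
          by_cases hva : v = a
          · subst hva
            simp only [if_true]
            exact h
          · by_cases hv0 : v = a0
            · subst hv0
              simp only [hva, if_false, if_true]
              exact h.symm
            · simp only [hva, hv0, if_false]
              exact h3 v (by tauto)

/-- The cycle through `q` in a component of a 2-regular graph. -/
theorem cyc {V : Type*} [Finite V] (F : SimpleGraph V) (hF : ∀ v, (F.neighborSet v).ncard = 2)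
    (K : F.ConnectedComponent) (q : V) (hq : q ∈ K.supp) :
    ∃ p : F.Walk q q, p.IsCycle ∧ (∀ v, v ∈ p.support ↔ v ∈ K.supp) ∧
      p.length = K.supp.ncard := by
  classical
  have hc : F.IsCycles := fun v _ => hF v
  obtain ⟨p, hp, hpv⟩ := hc.exists_cycle_toSubgraph_verts_eq_connectedComponentSupp hq
    (by
      apply Set.nonempty_of_ncard_ne_zero
      rw [hF]
      norm_num)
  refine ⟨p, hp, ?_, ?_⟩
  · intro v
    rw [← hpv, Walk.mem_verts_toSubgraph]
  · have h1 : K.supp = (p.support.tail.toFinset : Set V) := by
      rw [← hpv]
      ext v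
      rw [Walk.mem_verts_toSubgraph, List.coe_toFinset, Set.mem_ofPred_eq]
      constructor
      · intro hv
        rw [← List.cons_head_tail (Walk.support_ne_nil p), List.mem_cons] at hv
        rcases hv with rfl | hv
        · rw [Walk.head_support]
          exact Walk.end_mem_tail_support hp.not_nil
        · exact hv
      · exact fun hv => List.mem_of_mem_tail hv
    rw [h1, Set.ncard_coe_finset, List.toFinset_card_of_nodup hp.support_nodup,
      List.length_tail, Walk.length_support]
    rfl

theorem CIRE {V : Type*} [Finite V] (F : SimpleGraph V) (hF : ∀ v, (F.neighborSet v).ncard = 2)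
    (K : F.ConnectedComponent) (heven : Even K.supp.ncard) :
    ∃ ν : V → V, (∀ v, ν (ν v) = v) ∧ (∀ v, v ∉ K.supp → ν v = v) ∧
      ∀ v ∈ K.supp, F.Adj v (ν v) := by
  obtain ⟨q, hq⟩ := K.nonempty_supp
  obtain ⟨p, hp, hps, hpl⟩ := cyc F hF K q hq
  rw [← hpl] at heven
  obtain ⟨n, hn⟩ := heven
  have h3 := hp.three_le_length
  have hlt : p.tail.length = 2 * (n - 1) + 1 := by
    have := Walk.length_tail_add_one hp.not_nil
    omega
  obtain ⟨ν, h1, h2, h4⟩ := pathm (n - 1) p.tail hp.isPath_tail hlt
  have hsup : ∀ v, v ∈ p.tail.support ↔ v ∈ K.supp := by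
    intro v
    rw [← hps, Walk.support_tail_of_not_nil _ hp.not_nil]
    constructor
    · exact fun h => List.mem_of_mem_tail h
    · intro hv
      rw [← List.cons_head_tail (Walk.support_ne_nil p), List.mem_cons] at hv
      rcases hv with rfl | hv
      · rw [Walk.head_support]
        exact Walk.end_mem_tail_support hp.not_nil
      · exact hv
  refine ⟨ν, h1, ?_, ?_⟩
  · intro v hv
    exact h2 v (fun h => hv ((hsup v).1 h))
  · intro v hv
    exact h4 v ((hsup v).2 hv)

theorem CIRO {V : Type*} [Finite V] (F : SimpleGraph V) (hF : ∀ v, (F.neighborSet v).ncard = 2)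
    (K : F.ConnectedComponent) (hodd : Odd K.supp.ncard) (q : V) (hq : q ∈ K.supp) :
    ∃ ν : V → V, (∀ v, ν (ν v) = v) ∧ ν q = q ∧ (∀ v, v ∉ K.supp → ν v = v) ∧
      ∀ v ∈ K.supp, v ≠ q → F.Adj v (ν v) := by
  classical
  obtain ⟨p, hp, hps, hpl⟩ := cyc F hF K q hq
  rw [← hpl] at hodd
  obtain ⟨n, hn⟩ := hodd
  have h3 := hp.three_le_length
  have hlt : p.tail.length = 2 * n := by
    have := Walk.length_tail_add_one hp.not_nil
    omega
  have hnn : ¬ p.tail.Nil := by
    intro h
    have := Walk.length_eq_zero_iff.2 h
    omega
  have hlt2 : p.tail.dropLast.length = 2 * (n - 1) + 1 := by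
    have := Walk.length_dropLast_add_one hnn
    omega
  have hpt : p.tail.IsPath := hp.isPath_tail
  obtain ⟨ν, h1, h2, h4⟩ := pathm (n - 1) p.tail.dropLast hpt.dropLast hlt2
  have hsup0 : ∀ v, v ∈ p.tail.support ↔ v ∈ K.supp := by
    intro v
    rw [← hps, Walk.support_tail_of_not_nil _ hp.not_nil]
    constructor
    · exact fun h => List.mem_of_mem_tail h
    · intro hv
      rw [← List.cons_head_tail (Walk.support_ne_nil p), List.mem_cons] at hv
      rcases hv with rfl | hv
      · rw [Walk.head_support]
        exact Walk.end_mem_tail_support hp.not_nil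
      · exact hv
  have hsup : ∀ v, v ∈ p.tail.dropLast.support ↔ (v ∈ K.supp ∧ v ≠ q) := by
    intro v
    rw [Walk.support_dropLast hnn, ← hsup0]
    have h5 : p.tail.support.dropLast ++ [q] = p.tail.support := Walk.dropLast_support_concat _
    have h6 := hpt.support_nodup
    rw [← h5, List.nodup_append] at h6
    have h9 : v ∈ p.tail.support ↔ v ∈ p.tail.support.dropLast ∨ v = q := by
      conv_lhs => rw [← h5]
      rw [List.mem_append, List.mem_singleton]
    rw [h9]
    constructor
    · intro h7
      exact ⟨Or.inl h7, h6.2.2 v h7 q (List.mem_singleton.2 rfl)⟩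
    · rintro ⟨h7 | h7, h8⟩
      · exact h7
      · exact absurd h7 h8
  refine ⟨ν, h1, ?_, ?_, ?_⟩
  · apply h2
    rw [hsup]
    simp
  · intro v hv
    exact h2 v (fun h => hv ((hsup v).1 h).1)
  · intro v hv hvq
    exact h4 v ((hsup v).2 ⟨hv, hvq⟩)

end Pool.Agent.Helper74.BIS
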