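import Mathlib

set_option autoImplicit false

namespace Pool.Agent.Helper74.BIS

/-- From a colouring with bichromatic perfect matching and at most one neighbour of the own colour
to the conclusion of the problem. -/
theorem FIN {V : Type*} [Fintype V] (G : SimpleGraph V) (μ : V → V) (hμ : ∀ v, μ (μ v) = v)
    (c : V → Bool) (hμc : ∀ v, c (μ v) ≠ c v)
    (hone : ∀ v a b, G.Adj v a → G.Adj v b → c a = c v → c b = c v → a = b) :
    (Finset.univ.filter (fun v => c v = true)).card
        = (Finset.univ.filter (fun v => c v = false)).card ∧
      ∀ v : V, {w : V | (G ⊓ SimpleGraph.fromRel (fun a b : V => c a = c b)).Reachable v w}.ncard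
        ≤ 2 := by
  classical
  constructor
  · apply Finset.card_bij (fun v _ => μ v)
    · intro v hv
      simp only [Finset.mem_filter, Finset.mem_univ, true_and] at hv ⊢
      have := hμc v
      rw [hv] at this
      simpa using this
    · intro a _ b _ h
      rw [← hμ a, h, hμ]
    · intro v hv
      refine ⟨μ v, ?_, hμ v⟩
      simp only [Finset.mem_filter, Finset.mem_univ, true_and] at hv ⊢
      have := hμc v
      rw [hv] at this
      simpa using this
  · intro v
    have hsub : ∃ u, ∀ w, (G ⊓ SimpleGraph.fromRel (fun a b : V => c a = c b)).Reachable v w →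
        w = v ∨ w = u := by
      by_cases h : ∃ u, (G ⊓ SimpleGraph.fromRel (fun a b : V => c a = c b)).Adj v u
      · obtain ⟨u, hu⟩ := h
        refine ⟨u, ?_⟩
        intro w hw
        obtain ⟨p⟩ := hw
        have key : ∀ a b, (G ⊓ SimpleGraph.fromRel (fun a b : V => c a = c b)).Adj a b →
            G.Adj a b ∧ c b = c a := by
          intro a b hab
          simp only [SimpleGraph.inf_adj, SimpleGraph.fromRel_adj] at hab
          refine ⟨hab.1, ?_⟩
          rcases hab.2.2 with h1 | h1
          · exact h1.symm
          · exact h1
        have : ∀ {x y : V} (p : (G ⊓ SimpleGraph.fromRel (fun a b : V => c a = c b)).Walk x y),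
            (x = v ∨ x = u) → (y = v ∨ y = u) := by
          intro x y p
          induction p with
          | nil => exact id
          | cons hadj _ ih =>
            intro hx
            apply ih
            obtain ⟨h1, h2⟩ := key _ _ hadj
            obtain ⟨h3, h4⟩ := key _ _ hu
            rcases hx with rfl | rfl
            · right
              exact hone _ _ _ h1 h3 h2 h4
            · left
              exact hone _ _ _ h1 h3.symm h2 h4.symm
        exact this p (Or.inl rfl)
      · refine ⟨v, ?_⟩
        intro w hw
        obtain ⟨p⟩ := hw
        cases p with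
        | nil => exact Or.inl rfl
        | cons hadj _ => exact absurd ⟨_, hadj⟩ h
    obtain ⟨u, hu⟩ := hsub
    calc {w : V | (G ⊓ SimpleGraph.fromRel (fun a b : V => c a = c b)).Reachable v w}.ncard
        ≤ ({v, u} : Set V).ncard := by
          apply Set.ncard_le_ncard _ (Set.toFinite _)
          intro w hw
          simpa using hu w hw
      _ ≤ 2 := (Set.ncard_insert_le v {u}).trans (by simp)

end Pool.Agent.Helper74.BIS
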