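import Mathlib

set_option autoImplicit false

namespace Pool.Agent.Helper74.BIS

/-- Two partial involutions and an odd set of fixed points of the second one: some point of the
set is alone in its component. -/
theorem ORB {V : Type*} (μ ν : V → V) (hμ : ∀ v, μ (μ v) = v) (hν : ∀ v, ν (ν v) = v)
    (D : Finset V) (hD : ∀ v ∈ D, ν v = v) (hodd : Odd D.card) :
    ∃ q ∈ D, ∀ x ∈ D, Relation.ReflTransGen (fun a b => b = μ a ∨ b = ν a) q x → x = q := by
  classical
  let m : Equiv.Perm V := ⟨μ, μ, hμ, hμ⟩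
  let n : Equiv.Perm V := ⟨ν, ν, hν, hν⟩
  have hm : m * m = 1 := by ext v; exact hμ v
  have hn : n * n = 1 := by ext v; exact hν v
  have hm' : m⁻¹ = m := by rw [inv_eq_iff_mul_eq_one]; exact hm
  have hn' : n⁻¹ = n := by rw [inv_eq_iff_mul_eq_one]; exact hn
  let ρ : Equiv.Perm V := n * m
  have hinv : ρ⁻¹ = m * n := by simp only [ρ]; rw [mul_inv_rev, hm', hn']
  have hconjm : ∀ k : ℤ, m * ρ ^ k = ρ ^ (-k) * m := by
    intro k
    have h1 : m * ρ * m⁻¹ = ρ⁻¹ := by
      rw [hinv]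
      simp only [ρ]
      rw [hm', mul_assoc, mul_assoc, hm, mul_one]
    have h2 : m * ρ ^ k * m⁻¹ = (ρ⁻¹) ^ k := by
      rw [← h1, conj_zpow]
    rw [inv_zpow, ← zpow_neg] at h2
    rw [← h2, inv_mul_cancel_right]
  have hconjn : ∀ k : ℤ, n * ρ ^ k = ρ ^ (-k) * n := by
    intro k
    have h1 : n * ρ * n⁻¹ = ρ⁻¹ := by
      rw [hinv]
      simp only [ρ]
      rw [hn', ← mul_assoc, hn, one_mul]
    have h2 : n * ρ ^ k * n⁻¹ = (ρ⁻¹) ^ k := by
      rw [← h1, conj_zpow]
    rw [inv_zpow, ← zpow_neg] at h2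
    rw [← h2, inv_mul_cancel_right]
  have horb : ∀ q ∈ D, ∀ x, Relation.ReflTransGen (fun a b => b = μ a ∨ b = ν a) q x →
      ∃ k : ℤ, x = (ρ ^ k) q := by
    intro q hq x hx
    induction hx with
    | refl => exact ⟨0, by simp⟩
    | tail _ hbc ih =>
      obtain ⟨k, rfl⟩ := ih
      rcases hbc with rfl | rfl
      · refine ⟨-k - 1, ?_⟩
        have h1 : (m * ρ ^ k) q = (ρ ^ (-k) * m) q := by rw [hconjm]
        have h2 : m q = (ρ ^ (-1 : ℤ)) q := by
          rw [zpow_neg_one, hinv]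
          change m q = m (n q)
          congr 1
          exact (hD q hq).symm
        have h3 : (ρ ^ (-k) * m) q = (ρ ^ (-k) * ρ ^ (-1 : ℤ)) q := congrArg (ρ ^ (-k)) h2
        rw [← zpow_add] at h3
        exact h1.trans h3
      · refine ⟨-k, ?_⟩
        have h1 : (n * ρ ^ k) q = (ρ ^ (-k) * n) q := by rw [hconjn]
        have h2 : n q = q := hD q hq
        have h3 : (ρ ^ (-k) * n) q = (ρ ^ (-k)) q := congrArg (ρ ^ (-k)) h2
        exact h1.trans h3
  have hper : ∀ q ∈ D, ∀ k : ℤ, (ρ ^ k) q ∈ D → (ρ ^ (2 * k)) q = q := by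
    intro q hq k hk
    have h0 : n ((ρ ^ k) q) = (ρ ^ k) q := hD _ hk
    have h1 : (n * ρ ^ k) q = (ρ ^ (-k) * n) q := by rw [hconjn]
    have h2 : n q = q := hD q hq
    have h3 : (ρ ^ (-k) * n) q = (ρ ^ (-k)) q := congrArg (ρ ^ (-k)) h2
    have h4 : (ρ ^ k) q = (ρ ^ (-k)) q := h0.symm.trans (h1.trans h3)
    have h5 : (ρ ^ k * ρ ^ k) q = (ρ ^ k * ρ ^ (-k)) q := congrArg (ρ ^ k) h4
    rw [← zpow_add, ← zpow_add, add_neg_cancel, zpow_zero] at h5
    rw [two_mul]
    exact h5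
  have hdvd : ∀ q, ∀ k : ℤ, (ρ ^ k) q = q ↔
      (Function.minimalPeriod (fun x => ρ • x) q : ℤ) ∣ k := by
    intro q k
    rw [← MulAction.zpow_smul_eq_iff_minimalPeriod_dvd]
    rfl
  have huniq : ∀ q ∈ D, ∀ x ∈ D, ∀ y ∈ D,
      Relation.ReflTransGen (fun a b => b = μ a ∨ b = ν a) q x →
      Relation.ReflTransGen (fun a b => b = μ a ∨ b = ν a) q y → x ≠ q → y ≠ q → x = y := by
    intro q hq x hx y hy hqx hqy hxq hyq
    obtain ⟨k, rfl⟩ := horb q hq x hqx
    obtain ⟨l, rfl⟩ := horb q hq y hqy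
    have h1 := hper q hq k hx
    have h2 := hper q hq l hy
    rw [hdvd] at h1 h2
    have h3 : ¬ (Function.minimalPeriod (fun x => ρ • x) q : ℤ) ∣ k := fun h => hxq ((hdvd q k).2 h)
    have h4 : ¬ (Function.minimalPeriod (fun x => ρ • x) q : ℤ) ∣ l := fun h => hyq ((hdvd q l).2 h)
    have h5 : (Function.minimalPeriod (fun x => ρ • x) q : ℤ) ∣ (k - l) := by
      generalize (Function.minimalPeriod (fun x => ρ • x) q : ℤ) = N at h1 h2 h3 h4
      obtain ⟨a, ha⟩ := h1
      obtain ⟨b, hb⟩ := h2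
      rcases Int.even_or_odd' a with ⟨a', rfl | rfl⟩
      · exact absurd ⟨a', by linarith⟩ h3
      rcases Int.even_or_odd' b with ⟨b', rfl | rfl⟩
      · exact absurd ⟨b', by linarith⟩ h4
      exact ⟨a' - b', by linarith⟩
    have h6 := (hdvd q (k - l)).2 h5
    have h7 : (ρ ^ l * ρ ^ (k - l)) q = (ρ ^ l) q := congrArg (ρ ^ l) h6
    rw [← zpow_add] at h7
    have h8 : l + (k - l) = k := by ring
    rw [h8] at h7
    exact h7
  have hsymm : ∀ a b, Relation.ReflTransGen (fun a b => b = μ a ∨ b = ν a) a b →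
      Relation.ReflTransGen (fun a b => b = μ a ∨ b = ν a) b a := by
    intro a b h
    induction h with
    | refl => exact Relation.ReflTransGen.refl
    | tail _ hbc ih =>
      refine Relation.ReflTransGen.head ?_ ih
      rcases hbc with rfl | rfl
      · left; exact (hμ _).symm
      · right; exact (hν _).symm
  by_contra hcon
  push Not at hcon
  choose! f hf1 hf2 hf3 using hcon
  have hzero : (∑ _q ∈ D, (1 : ZMod 2)) = 0 := by
    refine Finset.sum_involution (fun a _ => f a) ?_ ?_ ?_ ?_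
    · intro a _; decide
    · intro a ha _; exact hf3 a ha
    · intro a ha; exact hf1 a ha
    · intro a ha
      exact huniq (f a) (hf1 a ha) _ (hf1 _ (hf1 a ha)) a ha (hf2 _ (hf1 a ha))
        (hsymm _ _ (hf2 a ha)) (hf3 _ (hf1 a ha)) (hf3 a ha).symm
  rw [Finset.sum_const, nsmul_eq_mul, mul_one] at hzero
  rw [ZMod.natCast_eq_zero_iff_even] at hzero
  exact (Nat.not_even_iff_odd.2 hodd) hzero

end Pool.Agent.Helper74.BIS
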