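import Pool.Agent.Helper74.BIS.TWO
import Pool.Agent.Helper74.BIS.ORB
import Pool.Agent.Helper74.BIS.BR
import Pool.Agent.Helper74.BIS.CIR

set_option autoImplicit false

namespace Pool.Agent.Helper74.BIS

open SimpleGraph

/-- Type of an uncovered vertex. -/
def Spec {V : Type*} (G F : SimpleGraph V) (μ : V → V) (q : V) : Prop :=
  G.IsBridge s(q, μ q) ∨ ∃ a b, F.Adj q a ∧ F.Adj q b ∧ G.Adj a b

theorem two_nbrs {V : Type*} (F : SimpleGraph V) (hF : ∀ v, (F.neighborSet v).ncard = 2)
    {v a b x : V} (ha : F.Adj v a) (hb : F.Adj v b) (hab : a ≠ b) (hx : F.Adj v x) :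
    x = a ∨ x = b := by
  obtain ⟨s, t, _, hst⟩ := Set.ncard_eq_two.1 (hF v)
  have h1 : a ∈ F.neighborSet v := ha
  have h2 : b ∈ F.neighborSet v := hb
  have h3 : x ∈ F.neighborSet v := hx
  rw [hst] at h1 h2 h3
  simp only [Set.mem_insert_iff, Set.mem_singleton_iff] at h1 h2 h3
  rcases h1 with rfl | rfl <;> rcases h2 with rfl | rfl <;> rcases h3 with rfl | rfl <;> simp_all

theorem local_match {V : Type*} [Finite V] (G F : SimpleGraph V) (μ : V → V)
    (hF : ∀ v, (F.neighborSet v).ncard = 2) (K : F.ConnectedComponent)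
    (hK : Even K.supp.ncard ∨ (∃ q ∈ K.supp, G.IsBridge s(q, μ q)) ∨
      (∃ q ∈ K.supp, ∃ a b, F.Adj q a ∧ F.Adj q b ∧ G.Adj a b)) :
    ∃ ν : V → V, (∀ v, ν (ν v) = v) ∧ (∀ v, v ∉ K.supp → ν v = v) ∧
      (∃ q, ∀ v ∈ K.supp, F.Adj v (ν v) ∨ (v = q ∧ ν v = v ∧ Spec G F μ v)) := by
  classical
  rcases Nat.even_or_odd K.supp.ncard with he | ho
  · obtain ⟨ν, h1, h2, h3⟩ := CIRE F hF K he
    obtain ⟨q, _⟩ := K.nonempty_supp
    exact ⟨ν, h1, h2, q, fun v hv => Or.inl (h3 v hv)⟩
  · have h : ∃ q ∈ K.supp, Spec G F μ q := by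
      rcases hK with h | ⟨q, hq, h⟩ | ⟨q, hq, h⟩
      · exact absurd h (Nat.not_even_iff_odd.2 ho)
      · exact ⟨q, hq, Or.inl h⟩
      · exact ⟨q, hq, Or.inr h⟩
    obtain ⟨q, hq, hs⟩ := h
    obtain ⟨ν, h1, h2, h3, h4⟩ := CIRO F hF K ho q hq
    refine ⟨ν, h1, h3, q, fun v hv => ?_⟩
    by_cases hvq : v = q
    · subst hvq
      exact Or.inr ⟨rfl, h2, hs⟩
    · exact Or.inl (h4 v hv hvq)

/-- The global matching: combine matchings of the circuits. -/
theorem glue {V : Type*} (F : SimpleGraph V) (f : F.ConnectedComponent → V → V)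
    (h1 : ∀ K v, f K (f K v) = v) (h2 : ∀ K v, v ∉ K.supp → f K v = v) (v : V) :
    F.connectedComponentMk (f (F.connectedComponentMk v) v) = F.connectedComponentMk v := by
  by_contra h
  have h3 : f (F.connectedComponentMk v) v ∉ (F.connectedComponentMk v).supp := by
    rw [ConnectedComponent.mem_supp_iff]
    exact h
  have h4 := h2 _ _ h3
  rw [h1] at h4
  rw [← h4] at h
  exact h rfl

theorem MAIN {V : Type*} [Finite V] (G F : SimpleGraph V) (μ : V → V) (hμ : ∀ v, μ (μ v) = v)
    (hFG : ∀ a b, G.Adj a b ↔ F.Adj a b ∨ b = μ a)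
    (hF : ∀ v, (F.neighborSet v).ncard = 2)
    (hard : F.ConnectedComponent → Prop)
    (hcls : ∀ K, hard K ∨ Even K.supp.ncard ∨ (∃ q ∈ K.supp, G.IsBridge s(q, μ q)) ∨
      (∃ q ∈ K.supp, ∃ a b, F.Adj q a ∧ F.Adj q b ∧ G.Adj a b))
    (hodd : ∀ K, hard K → Odd K.supp.ncard)
    (huniq : ∀ K K', hard K → hard K' → ∀ u ∈ K.supp, ∀ w ∈ K'.supp,
      (G.deleteEdges {e | G.IsBridge e}).Reachable u w → K = K') :
    ∃ c : V → Bool, (∀ v, c (μ v) ≠ c v) ∧
      ∀ v a b, G.Adj v a → G.Adj v b → c a = c v → c b = c v → a = b := by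
  classical
  have hμG : ∀ v, G.Adj v (μ v) := fun v => (hFG v (μ v)).2 (Or.inr rfl)
  -- matchings on the circuits which are not hard
  have hloc : ∀ K : F.ConnectedComponent, ∃ ν : V → V, (∀ v, ν (ν v) = v) ∧
      (∀ v, v ∉ K.supp → ν v = v) ∧ (hard K → ∀ v, ν v = v) ∧
      (¬ hard K → ∃ q, ∀ v ∈ K.supp, F.Adj v (ν v) ∨ (v = q ∧ ν v = v ∧ Spec G F μ v)) := by
    intro K
    by_cases hK : hard K
    · exact ⟨id, fun _ => rfl, fun _ _ => rfl, fun _ _ => rfl, fun h => absurd hK h⟩
    · obtain ⟨ν, h1, h2, h3⟩ := local_match G F μ hF K ((hcls K).resolve_left hK)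
      exact ⟨ν, h1, h2, fun h => absurd h hK, fun _ => h3⟩
  choose ν₀ hν1 hν2 hν3 hν4 using hloc
  let n0 : V → V := fun v => ν₀ (F.connectedComponentMk v) v
  have hn0c : ∀ v, F.connectedComponentMk (n0 v) = F.connectedComponentMk v :=
    glue F ν₀ hν1 hν2
  have hn0 : ∀ v, n0 (n0 v) = v := by
    intro v
    change ν₀ (F.connectedComponentMk (n0 v)) (n0 v) = v
    rw [hn0c]
    exact hν1 _ _
  let m0 : V → V := fun v => if G.IsBridge s(v, μ v) then v else μ v
  have hm0 : ∀ v, m0 (m0 v) = v := by
    intro v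
    by_cases h : G.IsBridge s(v, μ v)
    · simp only [m0, h, if_true]
    · have h' : ¬ G.IsBridge s(μ v, v) := by
        rw [Sym2.eq_swap]; exact h
      simp only [m0, h, if_false, hμ, h']
  -- hard circuits: the skip vertex
  have hq : ∀ K : F.ConnectedComponent, ∃ q : V, hard K → q ∈ K.supp ∧
      ∀ x ∈ K.supp, Relation.ReflTransGen (fun a b => b = m0 a ∨ b = n0 a) q x → x = q := by
    intro K
    by_cases hK : hard K
    · obtain ⟨q, hq1, hq2⟩ := ORB m0 n0 hm0 hn0 (Set.toFinite K.supp).toFinset
        (by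
          intro v hv
          rw [Set.Finite.mem_toFinset, ConnectedComponent.mem_supp_iff] at hv
          change ν₀ (F.connectedComponentMk v) v = v
          rw [hv]
          exact hν3 K hK v)
        (by rw [← Set.ncard_eq_toFinset_card]; exact hodd K hK)
      refine ⟨q, fun _ => ⟨by simpa using hq1, fun x hx => hq2 x (by simpa using hx)⟩⟩
    · obtain ⟨q, _⟩ := K.nonempty_supp
      exact ⟨q, fun h => absurd h hK⟩
  choose qh hqh using hq
  have hloc2 : ∀ K : F.ConnectedComponent, ∃ ν : V → V, (∀ v, ν (ν v) = v) ∧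
      (∀ v, v ∉ K.supp → ν v = v) ∧ (¬ hard K → ν = ν₀ K) ∧
      (hard K → ν (qh K) = qh K ∧ ∀ v ∈ K.supp, v ≠ qh K → F.Adj v (ν v)) := by
    intro K
    by_cases hK : hard K
    · obtain ⟨ν, h1, h2, h3, h4⟩ := CIRO F hF K (hodd K hK) (qh K) (hqh K hK).1
      exact ⟨ν, h1, h3, fun h => absurd hK h, fun _ => ⟨h2, h4⟩⟩
    · exact ⟨ν₀ K, hν1 K, hν2 K, fun _ => rfl, fun h => absurd h hK⟩
  choose ν₁ hν5 hν6 hν7 hν8 using hloc2
  let n : V → V := fun v => ν₁ (F.connectedComponentMk v) v
  have hnc : ∀ v, F.connectedComponentMk (n v) = F.connectedComponentMk v :=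
    glue F ν₁ hν5 hν6
  have hn : ∀ v, n (n v) = v := by
    intro v
    change ν₁ (F.connectedComponentMk (n v)) (n v) = v
    rw [hnc]
    exact hν5 _ _
  -- the three kinds of vertices
  have hkind : ∀ v, F.Adj v (n v) ∨ (n v = v ∧ Spec G F μ v ∧ ¬ hard (F.connectedComponentMk v)) ∨
      (n v = v ∧ hard (F.connectedComponentMk v) ∧ v = qh (F.connectedComponentMk v)) := by
    intro v
    have hvs : v ∈ (F.connectedComponentMk v).supp := rfl
    by_cases hK : hard (F.connectedComponentMk v)
    · obtain ⟨h1, h2⟩ := hν8 _ hK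
      by_cases hvq : v = qh (F.connectedComponentMk v)
      · right; right
        refine ⟨?_, hK, hvq⟩
        change ν₁ (F.connectedComponentMk v) v = v
        have h3 : ν₁ (F.connectedComponentMk v) v =
            ν₁ (F.connectedComponentMk v) (qh (F.connectedComponentMk v)) :=
          congrArg (ν₁ (F.connectedComponentMk v)) hvq
        rw [h3, h1]
        exact hvq.symm
      · left
        exact h2 v hvs hvq
    · obtain ⟨q, hq⟩ := hν4 _ hK
      have h1 : n v = ν₀ (F.connectedComponentMk v) v := by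
        change ν₁ (F.connectedComponentMk v) v = _
        rw [hν7 _ hK]
      rcases hq v hvs with h | ⟨_, h3, h4⟩
      · left; rw [h1]; exact h
      · right; left
        exact ⟨h1.trans h3, h4, hK⟩
  have hfix : ∀ v w, F.connectedComponentMk v = F.connectedComponentMk w → n v = v → n w = w →
      v = w := by
    intro v w hvw hv hw
    by_cases hK : hard (F.connectedComponentMk v)
    · obtain ⟨h1, h2⟩ := hν8 _ hK
      have hv' : v = qh (F.connectedComponentMk v) := by
        by_contra hne
        have := h2 v rfl hne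
        change F.Adj v (n v) at this
        rw [hv] at this
        exact F.irrefl this
      have hw' : w = qh (F.connectedComponentMk v) := by
        by_contra hne
        have h3 := h2 w (by rw [ConnectedComponent.mem_supp_iff]; exact hvw.symm) hne
        rw [hvw] at h3
        change F.Adj w (n w) at h3
        rw [hw] at h3
        exact F.irrefl h3
      exact hv'.trans hw'.symm
    · obtain ⟨q, hq⟩ := hν4 _ hK
      have hv' : v = q := by
        rcases hq v rfl with h | h
        · exfalso
          have h4 : n v = ν₀ (F.connectedComponentMk v) v := by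
            change ν₁ (F.connectedComponentMk v) v = _
            rw [hν7 _ hK]
          rw [← h4, hv] at h
          exact F.irrefl h
        · exact h.1
      have hw' : w = q := by
        rcases hq w (by rw [ConnectedComponent.mem_supp_iff]; exact hvw.symm) with h | h
        · exfalso
          have h4 : n w = ν₀ (F.connectedComponentMk v) w := by
            change ν₁ (F.connectedComponentMk w) w = _
            rw [← hvw, hν7 _ hK]
          rw [← h4, hw] at h
          exact F.irrefl h
        · exact h.1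
      exact hv'.trans hw'.symm
  have hnF : ∀ v, n v ≠ v → F.Adj v (n v) := by
    intro v hv
    rcases hkind v with h | h | h
    · exact h
    · exact absurd h.1 hv
    · exact absurd h.1 hv
  have hnbr : ∀ v, ∃ w, F.Adj v w := by
    intro v
    have h1 : (F.neighborSet v).Nonempty := by
      apply Set.nonempty_of_ncard_ne_zero
      rw [hF]
      norm_num
    obtain ⟨w, hw⟩ := h1
    exact ⟨w, hw⟩
  choose r hr using hnbr
  let S : V → Prop := fun v => n v = v ∧
    (G.IsBridge s(v, μ v) ∨ hard (F.connectedComponentMk v))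
  let H' : SimpleGraph V := SimpleGraph.fromRel
    (fun a b => b = μ a ∨ b = n a ∨ (S a ∧ b = r a))
  let H : SimpleGraph V := SimpleGraph.fromRel (fun a b => b = m0 a ∨ b = n a)
  have hH'adj : ∀ a b, H'.Adj a b ↔ a ≠ b ∧
      (b = μ a ∨ b = n a ∨ (S a ∧ b = r a) ∨ (S b ∧ a = r b)) := by
    intro a b
    simp only [H', SimpleGraph.fromRel_adj]
    constructor
    · rintro ⟨h1, (h | h | h) | (h | h | h)⟩
      · exact ⟨h1, Or.inl h⟩
      · exact ⟨h1, Or.inr (Or.inl h)⟩
      · exact ⟨h1, Or.inr (Or.inr (Or.inl h))⟩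
      · exact ⟨h1, Or.inl (by rw [h, hμ])⟩
      · exact ⟨h1, Or.inr (Or.inl (by rw [h, hn]))⟩
      · exact ⟨h1, Or.inr (Or.inr (Or.inr h))⟩
    · rintro ⟨h1, h | h | h | h⟩
      · exact ⟨h1, Or.inl (Or.inl h)⟩
      · exact ⟨h1, Or.inl (Or.inr (Or.inl h))⟩
      · exact ⟨h1, Or.inl (Or.inr (Or.inr h))⟩
      · exact ⟨h1, Or.inr (Or.inr (Or.inr h))⟩
  have hHadj : ∀ a b, H.Adj a b ↔ a ≠ b ∧ (b = m0 a ∨ b = n a) := by
    intro a b
    simp only [H, SimpleGraph.fromRel_adj]
    constructor
    · rintro ⟨h1, (h | h) | (h | h)⟩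
      · exact ⟨h1, Or.inl h⟩
      · exact ⟨h1, Or.inr h⟩
      · exact ⟨h1, Or.inl (by rw [h, hm0])⟩
      · exact ⟨h1, Or.inr (by rw [h, hn])⟩
    · rintro ⟨h1, h | h⟩
      · exact ⟨h1, Or.inl (Or.inl h)⟩
      · exact ⟨h1, Or.inl (Or.inr h)⟩
  have hFG' : ∀ a b, F.Adj a b → G.Adj a b := fun a b h => (hFG a b).2 (Or.inl h)
  have hH'G : H' ≤ G := by
    intro a b hab
    rw [hH'adj] at hab
    rcases hab with ⟨h1, h | h | h | h⟩
    · rw [h]; exact hμG a
    · rw [h]
      exact hFG' _ _ (hnF a (fun h2 => h1 (by rw [h, h2])))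
    · rw [h.2]; exact hFG' _ _ (hr a)
    · rw [h.2]; exact (hFG' _ _ (hr b)).symm
  have hbrH' : ∀ e, G.IsBridge e → H'.IsBridge e := fun e he => he.anti hH'G
  have hHH' : H ≤ H' := by
    intro a b hab
    rw [hHadj] at hab
    rw [hH'adj]
    refine ⟨hab.1, ?_⟩
    rcases hab.2 with h | h
    · by_cases hb : G.IsBridge s(a, μ a)
      · exfalso
        simp only [m0, hb, if_true] at h
        exact hab.1 h.symm
      · simp only [m0, hb, if_false] at h
        exact Or.inl h
    · exact Or.inr (Or.inl h)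
  have hcompr : ∀ v, F.connectedComponentMk (r v) = F.connectedComponentMk v := by
    intro v
    exact (ConnectedComponent.eq.2 (hr v).reachable).symm
  -- neighbours of a special vertex
  have hSn : ∀ q x, S q → H'.Adj q x → x = μ q ∨ x = r q := by
    intro q x hSq hqx
    rw [hH'adj] at hqx
    rcases hqx with ⟨h1, h | h | h | h⟩
    · exact Or.inl h
    · exfalso
      rw [hSq.1] at h
      exact h1 h.symm
    · exact Or.inr h.2
    · exfalso
      apply h1
      apply hfix q x _ hSq.1 h.1.1
      rw [h.2]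
      exact hcompr x
  have hfirst : ∀ {x y : V} (p : H'.Walk x y), x ≠ y → ∃ z, H'.Adj x z ∧ s(x, z) ∈ p.edges := by
    intro x y p
    cases p with
    | nil => intro h; exact absurd rfl h
    | cons h p' => intro _; exact ⟨_, h, by simp⟩
  -- case of an end of a bridge
  have hcaseg : ∀ q, S q → G.IsBridge s(q, μ q) → H'.IsBridge s(q, r q) := by
    intro q hSq hb
    by_contra hnb
    have hadj : H'.Adj q (r q) := by
      rw [hH'adj]
      exact ⟨(hr q).ne, Or.inr (Or.inr (Or.inl ⟨hSq, rfl⟩))⟩
    obtain ⟨p, hp⟩ := NB H' q (r q) hadj hnb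
    obtain ⟨x, h, hx⟩ := hfirst p hadj.ne
    have h1 := hp _ hx
    rcases hSn q x hSq h with rfl | rfl
    · exact h1.1 (hbrH' _ hb)
    · exact h1.2 rfl
  -- case of a hard circuit
  have hcaseh : ∀ q, S q → hard (F.connectedComponentMk q) → H'.IsBridge s(q, r q) := by
    intro q hSq hK
    by_contra hnb
    have hadj : H'.Adj q (r q) := by
      rw [hH'adj]
      exact ⟨(hr q).ne, Or.inr (Or.inr (Or.inl ⟨hSq, rfl⟩))⟩
    obtain ⟨p, hp⟩ := NB H' q (r q) hadj hnb
    have hqq : q = qh (F.connectedComponentMk q) := by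
      rcases hkind q with h | h | h
      · rw [hSq.1] at h; exact absurd h F.irrefl
      · exact absurd hK h.2.2
      · exact h.2.2
    have hprop : ∀ x ∈ (F.connectedComponentMk q).supp,
        Relation.ReflTransGen (fun a b => b = m0 a ∨ b = n0 a) q x → x = q := by
      intro x hx hqx
      have h2 := (hqh _ hK).2 x hx
      rw [← hqq] at h2
      exact h2 hqx
    have hwalk : ∀ {x y : V} (p : H'.Walk x y),
        (∀ e ∈ p.edges, ¬ H'.IsBridge e ∧ e ≠ s(q, r q)) →
        Relation.ReflTransGen (fun a b => b = m0 a ∨ b = n0 a) q x →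
        (G.deleteEdges {e | G.IsBridge e}).Reachable q x →
        Relation.ReflTransGen (fun a b => b = m0 a ∨ b = n0 a) q y := by
      intro x y p
      induction p with
      | nil => exact fun _ h _ => h
      | cons hxy p' ih =>
        rename_i x z y'
        intro hp hx1 hx2
        have he := hp s(x, z) (by simp)
        have hnbG : ¬ G.IsBridge s(x, z) := fun h => he.1 (hbrH' _ h)
        have hz2 : (G.deleteEdges {e | G.IsBridge e}).Reachable q z := by
          refine hx2.trans (SimpleGraph.Adj.reachable ?_)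
          rw [SimpleGraph.deleteEdges_adj]
          exact ⟨hH'G hxy, hnbG⟩
        apply ih (fun e he => hp e (by simp [he])) _ hz2
        have hhx : hard (F.connectedComponentMk x) → x = q := by
          intro hKx
          have h1 := huniq _ _ hK hKx q rfl x rfl hx2
          apply hprop x _ hx1
          rw [ConnectedComponent.mem_supp_iff]
          exact h1.symm
        rw [hH'adj] at hxy
        rcases hxy with ⟨h1, h | h | h | h⟩
        · refine hx1.tail (Or.inl ?_)
          have : ¬ G.IsBridge s(x, μ x) := by rw [← h]; exact hnbG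
          simp only [m0, this, if_false]
          exact h
        · by_cases hKx : hard (F.connectedComponentMk x)
          · exfalso
            have h3 := hhx hKx
            subst h3
            rw [hSq.1] at h
            exact h1 h.symm
          · refine hx1.tail (Or.inr ?_)
            rw [h]
            change ν₁ (F.connectedComponentMk x) x = ν₀ (F.connectedComponentMk x) x
            rw [hν7 _ hKx]
        · exfalso
          rcases h.1.2 with h3 | h3
          · apply he.1
            rw [h.2]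
            exact hcaseg x h.1 h3
          · have h4 := hhx h3
            subst h4
            apply he.2
            rw [h.2]
        · exfalso
          rcases h.1.2 with h3 | h3
          · apply he.1
            rw [h.2, Sym2.eq_swap]
            exact hcaseg z h.1 h3
          · have h5 : hard (F.connectedComponentMk x) := by
              rw [h.2, hcompr]; exact h3
            have h4 := hhx h5
            have h6 : z = x := by
              apply hfix z x _ h.1.1
              · rw [h4]; exact hSq.1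
              · rw [h.2, hcompr]
            exact h1 h6.symm
    have h1 := hwalk p hp Relation.ReflTransGen.refl (SimpleGraph.Reachable.refl q)
    have h2 := hprop (r q) (by rw [ConnectedComponent.mem_supp_iff]; exact hcompr q) h1
    exact (hr q).ne h2.symm
  obtain ⟨c0, hc01, hc02⟩ := TWO m0 n hm0 hn
  obtain ⟨c, hc⟩ := BR H c0
    (by
      intro a b hab
      rw [hHadj] at hab
      rcases hab with ⟨h1, h | h⟩
      · rw [h]
        exact (hc01 a (fun h2 => h1 (by rw [h, h2]))).symm
      · rw [h]
        exact (hc02 a (fun h2 => h1 (by rw [h, h2]))).symm)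
    _ H' hHH' rfl
    (by
      intro a b hab hno
      rw [hH'adj] at hab
      rw [hHadj] at hno
      rcases hab with ⟨h1, h | h | h | h⟩
      · by_cases hb : G.IsBridge s(a, μ a)
        · rw [h]; exact hbrH' _ hb
        · exfalso
          apply hno
          refine ⟨h1, Or.inl ?_⟩
          simp only [m0, hb, if_false]
          exact h
      · exact absurd ⟨h1, Or.inr h⟩ hno
      · rw [h.2]
        rcases h.1.2 with h3 | h3
        · exact hcaseg a h.1 h3
        · exact hcaseh a h.1 h3
      · rw [h.2, Sym2.eq_swap]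
        rcases h.1.2 with h3 | h3
        · exact hcaseg b h.1 h3
        · exact hcaseh b h.1 h3)
  have hcμ : ∀ v, c (μ v) ≠ c v := by
    intro v
    refine (hc v (μ v) ?_).symm
    rw [hH'adj]
    exact ⟨(hμG v).ne, Or.inl rfl⟩
  have hcn : ∀ v, n v ≠ v → c (n v) ≠ c v := by
    intro v hv
    refine (hc v (n v) ?_).symm
    rw [hH'adj]
    exact ⟨hv.symm, Or.inr (Or.inl rfl)⟩
  have hcr : ∀ v, S v → c (r v) ≠ c v := by
    intro v hv
    refine (hc v (r v) ?_).symm
    rw [hH'adj]
    exact ⟨(hr v).ne, Or.inr (Or.inr (Or.inl ⟨hv, rfl⟩))⟩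
  refine ⟨c, hcμ, ?_⟩
  intro v a b ha hb hca hcb
  by_contra hab
  have ha' : F.Adj v a := by
    rcases (hFG v a).1 ha with h | h
    · exact h
    · exfalso; rw [h] at hca; exact hcμ v hca
  have hb' : F.Adj v b := by
    rcases (hFG v b).1 hb with h | h
    · exact h
    · exfalso; rw [h] at hcb; exact hcμ v hcb
  have hnone : ∀ x, F.Adj v x → c x ≠ c v → False := by
    intro x hx hcx
    rcases two_nbrs F hF ha' hb' hab hx with rfl | rfl
    · exact hcx hca
    · exact hcx hcb
  rcases hkind v with h | h | h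
  · exact hnone _ h (hcn v h.ne.symm)
  · rcases h.2.1 with hbr | ⟨a', b', ha2, hb2, hab2⟩
    · exact hnone _ (hr v) (hcr v ⟨h.1, Or.inl hbr⟩)
    · have hca' : c a' = c v := by
        by_contra h3; exact hnone _ ha2 h3
      have hcb' : c b' = c v := by
        by_contra h3; exact hnone _ hb2 h3
      rcases (hFG a' b').1 hab2 with h3 | h3
      · have hna : n a' ≠ a' := by
          intro h4
          have h5 := hfix a' v (ConnectedComponent.eq.2 ha2.symm.reachable) h4 h.1
          exact ha2.ne h5.symm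
        rcases two_nbrs F hF ha2.symm h3 (by rintro rfl; exact hb2.ne rfl) (hnF a' hna) with h4 | h4
        · apply hna
          have h5 := hn a'
          rw [h4, h.1] at h5
          rw [h4, h5]
        · apply hcn a' hna
          rw [h4, hca', hcb']
      · apply hcμ a'
        rw [← h3, hca', hcb']
  · exact hnone _ (hr v) (hcr v ⟨h.1, Or.inr h.2.1⟩)

end Pool.Agent.Helper74.BIS
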