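import Mathlib

set_option autoImplicit false

namespace Pool.Agent.Helper74.BIS

/-- Two fixed-point-free involutions have a common alternating 2-colouring. -/
theorem two_aux {W : Type*} (μ ν : W → W) (hμ : ∀ v, μ (μ v) = v) (hν : ∀ v, ν (ν v) = v)
    (hμ1 : ∀ v, μ v ≠ v) (hν1 : ∀ v, ν v ≠ v) :
    ∃ c : W → Bool, (∀ v, c (μ v) ≠ c v) ∧ (∀ v, c (ν v) ≠ c v) := by
  classical
  let m : Equiv.Perm W := ⟨μ, μ, hμ, hμ⟩
  let n : Equiv.Perm W := ⟨ν, ν, hν, hν⟩
  have hm : m * m = 1 := by ext v; exact hμ v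
  have hn : n * n = 1 := by ext v; exact hν v
  have hm' : m⁻¹ = m := by rw [inv_eq_iff_mul_eq_one]; exact hm
  have hn' : n⁻¹ = n := by rw [inv_eq_iff_mul_eq_one]; exact hn
  let ρ : Equiv.Perm W := m * n
  have hconj : ∀ k : ℤ, m * ρ ^ k = ρ ^ (-k) * m := by
    intro k
    have h1 : m * ρ * m⁻¹ = ρ⁻¹ := by
      simp only [ρ]
      rw [mul_inv_rev, hm', hn', ← mul_assoc, hm, one_mul]
    have h2 : m * ρ ^ k * m⁻¹ = (ρ⁻¹) ^ k := by
      rw [← h1, conj_zpow]
    rw [inv_zpow, ← zpow_neg] at h2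
    rw [← h2, inv_mul_cancel_right]
  have hmr : m * ρ = n := by simp only [ρ]; rw [← mul_assoc, hm, one_mul]
  have key : ∀ v, ∀ k : ℤ, m v ≠ (ρ ^ k) v := by
    intro v k h
    rcases Int.even_or_odd' k with ⟨j, rfl | rfl⟩
    · apply hμ1 ((ρ ^ j) v)
      have h1 : (m * ρ ^ j) v = (ρ ^ (-j) * m) v := by rw [hconj]
      have h2 : (ρ ^ (-j) * m) v = (ρ ^ (-j) * ρ ^ (2 * j)) v := congrArg (ρ ^ (-j)) h
      have h3 : ρ ^ (-j) * ρ ^ (2 * j) = ρ ^ j := by
        rw [← zpow_add]; congr 1; ring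
      rw [h3] at h2
      exact h1.trans h2
    · apply hν1 ((ρ ^ j) v)
      have h1 : (m * ρ ^ (j + 1)) v = (ρ ^ (-(j + 1)) * m) v := by rw [hconj]
      have h2 : (ρ ^ (-(j + 1)) * m) v = (ρ ^ (-(j + 1)) * ρ ^ (2 * j + 1)) v :=
        congrArg (ρ ^ (-(j + 1))) h
      have h3 : ρ ^ (-(j + 1)) * ρ ^ (2 * j + 1) = ρ ^ j := by
        rw [← zpow_add]; congr 1; ring
      have h4 : m * ρ ^ (j + 1) = n * ρ ^ j := by
        rw [add_comm j 1, zpow_add, zpow_one, ← mul_assoc, hmr]
      rw [h3] at h2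
      rw [h4] at h1
      exact h1.trans h2
  let S : Setoid W := Equiv.Perm.SameCycle.setoid ρ
  have hmap : ∀ a b : W, S a b → S (μ a) (μ b) := by
    rintro a b ⟨k, hk⟩
    refine ⟨-k, ?_⟩
    have : (m * ρ ^ k) a = (ρ ^ (-k) * m) a := by rw [hconj]
    rw [Equiv.Perm.mul_apply, Equiv.Perm.mul_apply, hk] at this
    exact this.symm
  let bar : Quotient S → Quotient S := Quotient.map μ (fun a b h => hmap a b h)
  have hbar : ∀ x, bar (bar x) = x := by
    intro x
    induction x using Quotient.inductionOn with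
    | h a => simp only [bar, Quotient.map_mk, hμ]
  have hbar1 : ∀ x, bar x ≠ x := by
    intro x
    induction x using Quotient.inductionOn with
    | h a =>
      intro h
      simp only [bar, Quotient.map_mk] at h
      obtain ⟨k, hk⟩ := Quotient.exact h.symm
      exact key a k hk.symm
  let _ : LinearOrder (Quotient S) := linearOrderOfSTO WellOrderingRel
  have hcol : ∀ x, decide (bar x < bar (bar x)) ≠ decide (x < bar x) := by
    intro x
    rw [hbar]
    rcases lt_or_gt_of_ne (hbar1 x) with h | h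
    · simp [h, not_lt.mpr h.le]
    · simp [h, not_lt.mpr (le_of_lt h)]
  refine ⟨fun v => decide ((Quotient.mk S v) < bar (Quotient.mk S v)), ?_, ?_⟩
  · intro v
    exact hcol (Quotient.mk S v)
  · intro v
    have h1 : Quotient.mk S (ν v) = bar (Quotient.mk S v) := by
      simp only [bar, Quotient.map_mk]
      apply Quotient.sound
      refine ⟨1, ?_⟩
      rw [zpow_one]
      change μ (ν (ν v)) = μ v
      rw [hν]
    change decide ((Quotient.mk S (ν v)) < bar (Quotient.mk S (ν v))) ≠ _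
    rw [h1]
    exact hcol (Quotient.mk S v)

/-- Two partial involutions have a common alternating 2-colouring. -/
theorem TWO {V : Type*} (μ ν : V → V) (hμ : ∀ v, μ (μ v) = v) (hν : ∀ v, ν (ν v) = v) :
    ∃ c : V → Bool, (∀ v, μ v ≠ v → c (μ v) ≠ c v) ∧ (∀ v, ν v ≠ v → c (ν v) ≠ c v) := by
  classical
  obtain ⟨c, h1, h2⟩ := two_aux (W := V × Bool)
    (fun x => if μ x.1 = x.1 then (x.1, !x.2) else (μ x.1, x.2))
    (fun x => if ν x.1 = x.1 then (x.1, !x.2) else (ν x.1, x.2))
    (by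
      rintro ⟨v, b⟩
      by_cases h : μ v = v
      · simp [h]
      · have h' : ¬ v = μ v := fun h3 => h h3.symm
        simp [h, hμ, h'])
    (by
      rintro ⟨v, b⟩
      by_cases h : ν v = v
      · simp [h]
      · have h' : ¬ v = ν v := fun h3 => h h3.symm
        simp [h, hν, h'])
    (by
      rintro ⟨v, b⟩
      by_cases h : μ v = v
      · simp [h]
      · simp [h])
    (by
      rintro ⟨v, b⟩
      by_cases h : ν v = v
      · simp [h]
      · simp [h])
  refine ⟨fun v => c (v, true), ?_, ?_⟩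
  · intro v hv
    have := h1 (v, true)
    simpa [hv] using this
  · intro v hv
    have := h2 (v, true)
    simpa [hv] using this

end Pool.Agent.Helper74.BIS
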